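import Pool.Agent.Q54.HT.Rat

/-!
# Galois representations of geometric origin and cubic hypersurfaces with integer coefficients

For a tensor `T` of integers of format `(M + 1) × (M + 1) × (r + 1)` let `E_T` be the hypersurface
`∑ T_{abc} x_a y_b z_c = 1`, `x_0 = y_0 = 1`, in the affine space of dimension `2 M + r + 1` over the
rational numbers (`cubic T`). It is smooth over `ℚ`. We show that an irreducible representation of
the Galois group of a number field `K` arises from the cohomology of a variety over `K` if and only if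
it occurs, up to a Tate twist, in the restriction to `K` of the cohomology of one of the
hypersurfaces `E_T`.
-/

namespace Pool.Agent.Results.MP_2e0e07_nt.IntegralCubics

universe v w

open Q54.CU Q54.CC Q54.HT CategoryTheory AlgebraicGeometry

variable {K : Type} [Field K] [CharZero K] {𝓜 : Type w} [Category.{v} 𝓜] [Abelian 𝓜]

/-- The hypersurface `E_T` over the rational numbers. -/
noncomputable def cubic {M r : ℕ} (T : Fin (M + 1) → Fin (M + 1) → Fin (r + 1) → ℤ) : SchO ℚ :=
  tenO (fun a b c => (T a b c : ℚ)) 1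

/-- The object `S` is of geometric origin: it occurs in the homology of a variety over `K`. -/
def IsGeometric (h : ℤ → ℤ → SchO K → 𝓜) (S : 𝓜) : Prop := ∃ X : SchO K, IsVar X ∧ Occurs h S X

/-- The homology of a variety `X` over `K` is a direct summand of that of `X ⊗_ℚ K`; this scheme over
`K` contains `X` as an open and closed subscheme. -/
def HasSummands (h : ℤ → ℤ → SchO K → 𝓜) : Prop :=
  ∀ X : SchO K, IsVar X → ∀ n s : ℤ,
    ∃ (i : h n s X ⟶ h n s (bcO ℚ K (resO ℚ K X))) (p : h n s (bcO ℚ K (resO ℚ K X)) ⟶ h n s X), i ≫ p = 𝟙 _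

/-- **Representations of geometric origin and cubic hypersurfaces with integer coefficients.** -/
theorem result [FiniteDimensional ℚ K] (h : ℤ → ℤ → SchO K → 𝓜) (hs : HasSummands h)
    (hh : IsHomology fun n s (Y : SchO ℚ) => h n s (bcO ℚ K Y)) :
    (∀ S : 𝓜, Simple S → (IsGeometric h S ↔
      ∃ (M r : ℕ) (T : Fin (M + 1) → Fin (M + 1) → Fin (r + 1) → ℤ), Occurs h S (bcO ℚ K (cubic T)))) ∧
    ∀ (M r : ℕ) (T : Fin (M + 1) → Fin (M + 1) → Fin (r + 1) → ℤ),
      IsVar (cubic T) ∧ IsAffine (cubic T).left ∧ Smooth (cubic T).hom := by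
  refine ⟨fun S hS => ⟨?_, ?_⟩, fun M r T => ?_⟩
  · rintro ⟨X, hX, n, s, B, j, q, hj, hq⟩
    obtain ⟨i, p, hip⟩ := hs X hX n s
    have h1 : Mono i := by
      have : Mono (i ≫ p) := by rw [hip]; infer_instance
      exact mono_of_mono i p
    obtain ⟨M, r, T, n', s', hT⟩ := occurs_cubic hh hS (isVar_resO ℚ hX) ⟨n, s, B, j ≫ i, q, mono_comp _ _, hq⟩
    obtain ⟨N, T', hN, hT'⟩ := exists_int_tensor T
    obtain ⟨e⟩ := scale_iso hh T hN n' s'
    refine ⟨M, r, T', n', s', ?_⟩
    rw [cubic, hT']
    exact hT.iso e.symm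
  · rintro ⟨M, r, T, hT⟩
    exact ⟨_, isVar_bcO K (isVar_tenO _ 1), hT⟩
  · exact ⟨isVar_tenO _ 1, isAffine_tenO _ 1, smooth_hyp (tq _)⟩

end Pool.Agent.Results.MP_2e0e07_nt.IntegralCubics
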