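import Pool.Agent.Q50.GO.Main

/-!
# Nonzero powers of traces at a positive proportion of the places decide geometric origin

Let `R` be an irreducible `p`-adic representation of the Galois group of a number field `F`, unramified at
almost all places. It is a subquotient of a Tate twist of the étale cohomology of a smooth projective
variety over `F` if and only if for some finite Galois extension `L` of `F`, some representation `S` over
`L` of any dimension which has this property over `L`, and some `k ≥ 1` the `k`-th powers of the traces of
`Frob_w` on `R` and on `S` agree and are not zero for a set of places `w` of `L` of positive upper density.

In particular this is so for the representations of Bianchi newforms: no relation between the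
dimensions, between the other coefficients of the characteristic polynomials, and at the remaining
places is required.

Proved in Lean: if `trace (c a) = trace (d b)` for all members `(a, b)` of a monoid of pairs of matrices,
and this is not always zero, then the two representations of the monoid have a common subquotient.
-/

set_option autoImplicit false
set_option linter.ambiguousOpen false

universe u

namespace Pool.Agent.Results.MP_2e0e07_nt.PowersOfTraces

open Pool.Agent.Q50.ES Pool.Agent.Q50.ES.GO NumberField

/-- **Geometric origin from powers of traces.** (1) An irreducible representation `R` of the Galois group
of a number field, unramified at almost all places, arises from étale cohomology if and only if over some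
finite Galois extension `L` there is a representation of any dimension which arises from étale
cohomology such that for some `k ≥ 1` the `k`-th powers of the traces of the Frobenius elements agree
and are not zero for a set of places of `L` of positive upper density. (2) The representations of all
Bianchi newforms arise from étale cohomology if and only if they all satisfy the condition of (1). -/
theorem result {K : Type u} [Field K] [TopologicalSpace K] [IsTopologicalRing K]
    (T : GO.Data K) (hT : T.Facts) :
    (∀ (n : ℕ) (F : Fld), IsNumberField F → ∀ R : GN.RepN K n F, Irreducible R →
      T.Unramified R → (T.Geometric R ↔ T.Approximated R)) ∧
    ((∀ F, GE.ImaginaryQuadratic F → ∀ f : T.Form F, T.Geometric (T.gal f)) ↔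
      ∀ F, GE.ImaginaryQuadratic F → ∀ f : T.Form F, T.Approximated (T.gal f)) :=
  ⟨fun _ _ hF R hR hU => GO.Data.geometric_iff hT hF R hR hU, GO.Data.bianchi_iff hT⟩

end Pool.Agent.Results.MP_2e0e07_nt.PowersOfTraces
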