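import Pool.Agent.Q60.CF.Num

/-!
# Galois representations of geometric origin, dimension, and formats of integral tensors

Let `K` be a number field. For a trilinear form `T` with integral coefficients consider the smooth
affine hypersurface `T(x, y, z) = 1` over `K`. We show, for an irreducible representation `S` of the
Galois group of `K` and every `n`: `S` occurs, up to a Tate twist, in the homology of a variety over
`K` of dimension at most `n` if and only if it occurs in the homology of such a hypersurface with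
`n + 2` variables `z`, and also if and only if it occurs in the homology of such a hypersurface for
which one of the three blocks of variables has at most `n + 2` members.
-/

set_option autoImplicit false

universe v w

namespace Pool.Agent.Results.MP_2e0e07_nt.TensorFormats

open CategoryTheory Limits AlgebraicGeometry Pool.Agent.Y116.UV Pool.Agent.Q60.CF
open Q54.CU (SchO IsVar)
open Q54.HT (Occurs bcO resO isVar_resO)

variable {K : Type} [Field K] {𝓜 : Type w} [Category.{v} 𝓜]

/-- The object `S` occurs in the homology of a variety over `K` of dimension at most `n`. -/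
def InDimension (h : ℤ → ℤ → SchO K → 𝓜) (n : ℕ) (S : 𝓜) : Prop :=
  ∃ X : SchO K, IsVar X ∧ topologicalKrullDim X.left ≤ n ∧ Occurs h S X

/-- The object `S` occurs in the homology of a smooth variety over `K` of dimension at most `n`. -/
def InSmooth (h : ℤ → ℤ → SchO K → 𝓜) (n : ℕ) (S : 𝓜) : Prop :=
  ∃ X : SchO K, IsVar X ∧ Smooth X.hom ∧ topologicalKrullDim X.left ≤ n ∧ Occurs h S X

/-- **Galois representations of geometric origin, dimension and formats of integral tensors.** -/
theorem result [NumberField K] [Abelian 𝓜] (h : ℤ → ℤ → SchO K → 𝓜) (hK : IsBorelMoore h)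
    (hQ : IsBorelMoore fun n s (Y : Sch ℚ) => h n s (bcO ℚ K Y)) (hs : HasSummands h) (S : 𝓜)
    (hS : Simple S) (n : ℕ) :
    List.TFAE [InDimension h n S, InSmooth h n S,
      ∃ (a b : ℕ) (T : Fin a → Fin b → Fin (n + 2) → ℤ), Occurs h S (hyper K T),
      ∃ (a b c : ℕ) (T : Fin a → Fin b → Fin c → ℤ),
        (a ≤ n + 2 ∨ b ≤ n + 2 ∨ c ≤ n + 2) ∧ Occurs h S (hyper K T)] ∧
    ∀ (a b c : ℕ) (T : Fin a → Fin b → Fin c → ℤ), IsVar (hyper K T) ∧ Smooth (hyper K T).hom := by
  refine ⟨?_, fun a b c T => ⟨isVar_hyper T, smooth_hyper T⟩⟩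
  tfae_have 1 → 2 := by
    rintro ⟨X, hX, hn, h1⟩
    obtain ⟨Y, hY, h2, h3, h4⟩ := occurs_smooth hK hS n ⟨X, ft_of_isVar hX, hn, h1⟩
    exact ⟨Y, isVar_of_ft hY, h2, h3, h4⟩
  tfae_have 2 → 1 := fun ⟨X, hX, _, hn, h1⟩ => ⟨X, hX, hn, h1⟩
  tfae_have 1 → 3 := by
    rintro ⟨X, hX, hn, h1⟩
    obtain ⟨a, b, T, hT⟩ := (occurs_dim hQ hS n).1
      ⟨resO ℚ K X, ft_of_isVar (isVar_resO ℚ hX), hn, occurs_resO hs hX h1⟩
    obtain ⟨T', hT'⟩ := occurs_int hK T hT
    exact ⟨a, b, T', hT'⟩
  tfae_have 3 → 4 := fun ⟨a, b, T, hT⟩ => ⟨a, b, n + 2, T, Or.inr (Or.inr le_rfl), hT⟩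
  tfae_have 4 → 1 := by
    rintro ⟨a, b, c, T, hm, hT⟩
    obtain ⟨X, hX, hn, h1⟩ := occurs_block hK hS n _ hm hT
    exact ⟨X, isVar_of_ft hX, hn, h1⟩
  tfae_finish

end Pool.Agent.Results.MP_2e0e07_nt.TensorFormats
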