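import Pool.Agent.Q60.CF.Num

/-!
# Galois representations of geometric origin and tripartite hypergraphs

Let `K` be a number field and `T` a tensor with entries `0` and `1`: a finite set of triples
`(i, j, k)`. We show that an irreducible representation of the Galois group of `K` occurs, up to a
Tate twist, in the homology of a variety over `K` if and only if it occurs in the homology of one of
the smooth affine hypersurfaces `∑ x_i y_j z_k = 1` over `K`, the sum over the set of triples.
-/

set_option autoImplicit false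

universe v w

namespace Pool.Agent.Results.MP_2e0e07_nt.TripartiteHypergraphs

open CategoryTheory Limits AlgebraicGeometry Pool.Agent.Y116.UV Pool.Agent.Q60.CF
open Q54.CU (SchO IsVar)
open Q54.HT (Occurs bcO resO isVar_resO)

variable {K : Type} [Field K] {𝓜 : Type w} [Category.{v} 𝓜]

/-- **Galois representations of geometric origin and tripartite hypergraphs.** -/
theorem result [NumberField K] [Abelian 𝓜] (h : ℤ → ℤ → SchO K → 𝓜) (hK : IsBorelMoore h)
    (hQ : IsBorelMoore fun n s (Y : Sch ℚ) => h n s (bcO ℚ K Y)) (hs : HasSummands h) (S : 𝓜)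
    (hS : Simple S) :
    ((∃ X : SchO K, IsVar X ∧ Occurs h S X) ↔
      ∃ (a b c : ℕ) (T : Fin a → Fin b → Fin c → ℤ), (∀ i j k, T i j k = 0 ∨ T i j k = 1) ∧
        Occurs h S (hyper K T)) ∧
    ∀ (a b c : ℕ) (T : Fin a → Fin b → Fin c → ℤ), IsVar (hyper K T) ∧ Smooth (hyper K T).hom := by
  refine ⟨⟨?_, ?_⟩, fun a b c T => ⟨isVar_hyper T, smooth_hyper T⟩⟩
  · rintro ⟨X, hX, h1⟩
    exact occurs_zero_one hK hQ hS (ft_of_isVar (isVar_resO ℚ hX)) (occurs_resO hs hX h1)
  · rintro ⟨a, b, c, T, -, hT⟩
    exact ⟨_, isVar_hyper T, hT⟩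

end Pool.Agent.Results.MP_2e0e07_nt.TripartiteHypergraphs
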